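import Pool.Agent.AcylTdc2.Sub

/-!
# Counting lemmas
-/

open Filter Topology Set Pool.Agent.TwistedRatio Pool.Agent.AcylTdc

namespace Pool.Agent.AcylTdc2

section few

variable {G : Type*} [Group G]

private lemma conjs_finite (F : G) (l : List G) : (conjs F l).Finite := by
  have : conjs F l ⊆ (fun i => (l.take i).prod * F * ((l.take i).prod)⁻¹) ''
      (↑(Finset.range (l.length + 1)) : Set ℕ) := by
    rintro a ⟨i, hi, rfl⟩
    exact ⟨i, by simpa using Nat.lt_succ_of_le hi, rfl⟩
  exact (Set.Finite.image _ (Finset.finite_toSet _)).subset this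

private lemma comm_of_conj_eq {F g u : G} (h : g * F * g⁻¹ = u * F * u⁻¹) :
    (u⁻¹ * g) * F = F * (u⁻¹ * g) := by
  have h1 : g * F = u * F * u⁻¹ * g := by
    rw [← h]; simp
  calc (u⁻¹ * g) * F = u⁻¹ * (g * F) := by simp [mul_assoc]
    _ = u⁻¹ * (u * F * u⁻¹ * g) := by rw [h1]
    _ = F * (u⁻¹ * g) := by simp [mul_assoc]

/-- Few elements have few conjugates along a word; version with an arbitrary bound for the part of
the centralizer in the balls. -/
theorem count_few {X : Set G} (hX : X.Finite) (F : G) (u : ℕ → ℕ)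
    (hA : ∀ n, ({c | c * F = F * c} ∩ ball X n).ncard ≤ u n) :
    ∃ K : ℕ, ∀ m n, (few X F m n).ncard ≤ (K * u (2 * n) + 1) ^ m := by
  classical
  have hY : (X ∪ X⁻¹).Finite := hX.union hX.inv
  set Y : Finset G := hY.toFinset with hYdef
  refine ⟨1 + Y.card, fun m n => ?_⟩
  set B : Finset G := (ball_finite hX n).toFinset with hB
  -- the part of a left coset of the centralizer in the ball
  let f : G → Finset G := fun w => B.filter (fun g => (w⁻¹ * g) * F = F * (w⁻¹ * g))
  have hf : ∀ w, (f w).card ≤ u (2 * n) := by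
    intro w
    rcases (f w).eq_empty_or_nonempty with h0 | ⟨g₀, hg₀⟩
    · rw [h0]; simp
    · have hfin : ({c | c * F = F * c} ∩ ball X (2 * n)).Finite :=
        (ball_finite hX _).subset Set.inter_subset_right
      have h1 : (f w).card ≤ (hfin.toFinset).card := by
        refine Finset.card_le_card_of_injOn (fun g => g₀⁻¹ * g) ?_ ?_
        · intro g hg
          have hg' := Finset.mem_filter.1 (Finset.mem_coe.1 hg)
          have hg₀' := Finset.mem_filter.1 hg₀
          have hgB : g ∈ ball X n := by simpa [hB] using hg'.1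
          have hg₀B : g₀ ∈ ball X n := by simpa [hB] using hg₀'.1
          simp only [Set.Finite.coe_toFinset, Set.mem_inter_iff, Set.mem_setOf_eq]
          constructor
          · have e1 : g₀⁻¹ * g = (w⁻¹ * g₀)⁻¹ * (w⁻¹ * g) := by group
            rw [e1]
            have c1 : Commute (w⁻¹ * g) F := hg'.2
            have c2 : Commute (w⁻¹ * g₀) F := hg₀'.2
            exact (c2.inv_left.mul_left c1)
          · have := ball_mul (ball_inv hg₀B) hgB
            rw [two_mul]
            exact this
        · intro a _ b _ hab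
          simpa using hab
      have h2 := hA (2 * n)
      rw [Set.ncard_eq_toFinset_card _ hfin] at h2
      exact h1.trans h2
  -- elements of the ball in a visited coset
  let W : ℕ → Finset G := fun m => B.filter (fun g => ∃ l : List G, l.length ≤ n ∧
    (∀ s ∈ l, s ∈ X ∨ s⁻¹ ∈ X) ∧ (conjs F l).ncard ≤ m ∧ g * F * g⁻¹ ∈ conjs F l)
  have hW0 : W 0 = ∅ := by
    rw [Finset.eq_empty_iff_forall_notMem]
    intro g hg
    obtain ⟨_, l, _, _, h3, h4⟩ := Finset.mem_filter.1 hg
    have : 0 < (conjs F l).ncard := (Set.ncard_pos (conjs_finite F l)).2 ⟨_, h4⟩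
    omega
  have hWs : ∀ k, W (k + 1) ⊆ f 1 ∪ (W k ×ˢ Y).biUnion (fun p => f (p.1 * p.2)) := by
    intro k g hg
    obtain ⟨hgB, l, hl, hl', h3, h4⟩ := Finset.mem_filter.1 hg
    have hex : ∃ i, i ≤ l.length ∧
        g * F * g⁻¹ = (l.take i).prod * F * ((l.take i).prod)⁻¹ := h4
    obtain ⟨hi1, hi2⟩ := Nat.find_spec hex
    have hmin : ∀ j < Nat.find hex, ¬ (j ≤ l.length ∧
        g * F * g⁻¹ = (l.take j).prod * F * ((l.take j).prod)⁻¹) := fun j hj =>
      Nat.find_min hex hj
    generalize Nat.find hex = i at hi1 hi2 hmin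
    rw [Finset.mem_union]
    rcases i with _ | j
    · left
      refine Finset.mem_filter.2 ⟨hgB, ?_⟩
      refine comm_of_conj_eq ?_
      simpa using hi2
    · right
      have hjl : j < l.length := hi1
      have hlen : (l.take j).length = j := by simp; omega
      have hsub : conjs F (l.take j) ⊆ conjs F l := by
        rintro a ⟨i, hi, rfl⟩
        rw [hlen] at hi
        refine ⟨i, by omega, ?_⟩
        rw [List.take_take, min_eq_left hi]
      have hnot : g * F * g⁻¹ ∉ conjs F (l.take j) := by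
        rintro ⟨i, hi, h⟩
        rw [hlen] at hi
        rw [List.take_take, min_eq_left hi] at h
        exact hmin i (by omega) ⟨by omega, h⟩
      have hlt : (conjs F (l.take j)).ncard < (conjs F l).ncard := by
        refine Set.ncard_lt_ncard ⟨hsub, fun h => hnot (h h4)⟩ (conjs_finite F l)
      have hlet : ∀ s ∈ l.take j, s ∈ X ∨ s⁻¹ ∈ X := fun s hs =>
        hl' s (List.mem_of_mem_take hs)
      have hu : (l.take j).prod ∈ W k := by
        refine Finset.mem_filter.2 ⟨?_, l.take j, by rw [hlen]; omega, hlet, by omega, ?_⟩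
        · rw [hB, Set.Finite.mem_toFinset]
          exact ⟨l.take j, by rw [hlen]; omega, hlet, rfl⟩
        · refine ⟨j, by rw [hlen], ?_⟩
          rw [List.take_take, min_self]
      have hs : l[j] ∈ Y := by
        rw [hYdef, Set.Finite.mem_toFinset]
        rcases hl' l[j] (List.getElem_mem hjl) with h | h
        · exact Or.inl h
        · exact Or.inr (by simpa using h)
      refine Finset.mem_biUnion.2 ⟨((l.take j).prod, l[j]), Finset.mem_product.2 ⟨hu, hs⟩, ?_⟩
      refine Finset.mem_filter.2 ⟨hgB, ?_⟩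
      refine comm_of_conj_eq ?_
      rw [hi2, List.take_succ_eq_append_getElem hjl, List.prod_append]
      simp
  have hWc : ∀ k, (W k).card ≤ ((1 + Y.card) * u (2 * n) + 1) ^ k := by
    intro k
    induction k with
    | zero => rw [hW0]; simp
    | succ k ih =>
      have h1 : (W (k + 1)).card ≤ u (2 * n) + (W k).card * Y.card * u (2 * n) := by
        refine (Finset.card_le_card (hWs k)).trans ((Finset.card_union_le _ _).trans ?_)
        refine Nat.add_le_add (hf 1) ?_
        refine (Finset.card_biUnion_le_card_mul _ _ (u (2 * n)) (fun p _ => hf _)).trans ?_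
        rw [Finset.card_product]
      set Q := ((1 + Y.card) * u (2 * n) + 1) with hQ
      have hQ1 : 1 ≤ Q ^ k := Nat.one_le_pow _ _ (by rw [hQ]; positivity)
      calc (W (k + 1)).card ≤ u (2 * n) + (W k).card * Y.card * u (2 * n) := h1
        _ ≤ Q ^ k * u (2 * n) + Q ^ k * Y.card * u (2 * n) := by
            refine Nat.add_le_add ?_ ?_
            · exact Nat.le_mul_of_pos_left _ hQ1
            · exact Nat.mul_le_mul_right _ (Nat.mul_le_mul_right _ ih)
        _ = Q ^ k * ((1 + Y.card) * u (2 * n)) := by ring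
        _ ≤ Q ^ k * Q := by
            refine Nat.mul_le_mul_left _ ?_
            rw [hQ]
            exact Nat.le_succ _
        _ = Q ^ (k + 1) := by rw [pow_succ]
  have hsub : few X F m n ⊆ ↑(W m) := by
    rintro g ⟨l, hl, hl', hg, hc⟩
    rw [Finset.mem_coe]
    refine Finset.mem_filter.2 ⟨?_, l, hl, hl', hc, ?_⟩
    · rw [hB, Set.Finite.mem_toFinset]
      exact ⟨l, hl, hl', hg⟩
    · refine ⟨l.length, le_rfl, ?_⟩
      rw [List.take_length, hg]
  have h5 := Set.ncard_le_ncard hsub (Finset.finite_toSet _)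
  rw [Set.ncard_coe_finset] at h5
  exact h5.trans (hWc m)

/-- `few` is negligible when the centralizer of `F` has subexponential growth. -/
theorem few_negligible {X : Set G} (hX : X.Finite) (F : G) (u : ℕ → ℕ)
    (hA : ∀ n, ({c | c * F = F * c} ∩ ball X n).ncard ≤ u n) (hu : SubExp fun n => u (2 * n))
    (hgrow : ∃ c : ℕ, 1 ≤ c ∧ ∀ n, 2 ^ n ≤ (ball X (c * n)).ncard) (m : ℕ) {ε : ℝ} (hε : 0 < ε) :
    ∃ n₀, ∀ n ≥ n₀, ((few X F m n).ncard : ℝ) ≤ ε * (ball X n).ncard := by
  obtain ⟨K, hK⟩ := count_few hX F u hA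
  have h1 : SubExp fun n => (K * u (2 * n) + 1) ^ m :=
    (((subExp_const K).mul hu).add (subExp_const 1)).pow m
  obtain ⟨n₀, hn₀⟩ := h1.negligible hX hgrow hε
  refine ⟨n₀, fun n hn => le_trans ?_ (hn₀ n hn)⟩
  exact_mod_cast hK m n

end few

section image

variable {G K : Type*} [Group G] [Group K]

theorem ball_image (π : G →* K) (X : Set G) (n : ℕ) : ball (π '' X) n = π '' ball X n := by
  ext g
  constructor
  · rintro ⟨l, hl, hl', rfl⟩
    have : ∀ l : List K, (∀ s ∈ l, s ∈ π '' X ∨ s⁻¹ ∈ π '' X) →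
        ∃ k : List G, k.length = l.length ∧ (∀ s ∈ k, s ∈ X ∨ s⁻¹ ∈ X) ∧ π k.prod = l.prod := by
      intro l
      induction l with
      | nil => intro _; exact ⟨[], rfl, by simp, by simp⟩
      | cons a l ih =>
        intro h
        obtain ⟨k, hk1, hk2, hk3⟩ := ih fun s hs => h s (List.mem_cons_of_mem _ hs)
        rcases h a List.mem_cons_self with ⟨x, hx, hxa⟩ | ⟨x, hx, hxa⟩
        · refine ⟨x :: k, by simp [hk1], ?_, by simp [hk3, hxa]⟩
          intro s hs
          rcases List.mem_cons.1 hs with rfl | hs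
          · exact Or.inl hx
          · exact hk2 s hs
        · refine ⟨x⁻¹ :: k, by simp [hk1], ?_, by simp [hk3, hxa]⟩
          intro s hs
          rcases List.mem_cons.1 hs with rfl | hs
          · exact Or.inr (by simpa using hx)
          · exact hk2 s hs
    obtain ⟨k, hk1, hk2, hk3⟩ := this l hl'
    exact ⟨k.prod, ⟨k, by omega, hk2, rfl⟩, hk3⟩
  · rintro ⟨_, ⟨l, hl, hl', rfl⟩, rfl⟩
    refine ⟨l.map π, by simpa using hl, ?_, by rw [map_list_prod]⟩
    intro s hs
    obtain ⟨t, ht, rfl⟩ := List.mem_map.1 hs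
    rcases hl' t ht with h | h
    · exact Or.inl ⟨t, h, rfl⟩
    · exact Or.inr ⟨t⁻¹, h, by simp⟩

/-- subexponential growth does not depend on the generating set, and passes to the balls of any
finite set -/
theorem SubexpGrowth.subExp (hV : SubexpGrowth G) {T : Set G} (hT : T.Finite) :
    SubExp fun n => (ball T n).ncard := by
  obtain ⟨Z, hZ, hgen, hsub⟩ := hV
  have hmem : ∀ g : G, ∃ n, g ∈ ball Z n := by
    intro g
    have hg : g ∈ Subgroup.closure Z := by rw [hgen]; trivial
    induction hg using Subgroup.closure_induction with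
    | mem x hx => exact ⟨1, [x], by simp, by simpa using Or.inl hx, by simp⟩
    | one => exact ⟨0, one_mem_ball Z 0⟩
    | mul x y _ _ hx hy =>
      obtain ⟨m, hm⟩ := hx
      obtain ⟨n, hn⟩ := hy
      exact ⟨m + n, ball_mul hm hn⟩
    | inv x _ hx =>
      obtain ⟨m, hm⟩ := hx
      exact ⟨m, ball_inv hm⟩
  choose ℓ hℓ using hmem
  obtain ⟨c, hc⟩ : ∃ c : ℕ, ∀ t ∈ T, ℓ t ≤ c := by
    obtain ⟨c, hc⟩ := (hT.image ℓ).bddAbove
    exact ⟨c, fun t ht => hc ⟨t, ht, rfl⟩⟩
  have hsubset : ∀ n, ball T n ⊆ ball Z (c * n) := by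
    rintro n _ ⟨l, hl, hl', rfl⟩
    have : ∀ l : List G, (∀ s ∈ l, s ∈ T ∨ s⁻¹ ∈ T) → l.prod ∈ ball Z (c * l.length) := by
      intro l
      induction l with
      | nil => intro _; exact one_mem_ball Z _
      | cons a l ih =>
        intro h
        have h1 := ih fun s hs => h s (List.mem_cons_of_mem _ hs)
        have h2 : a ∈ ball Z c := by
          rcases h a List.mem_cons_self with ha | ha
          · exact ball_mono (hc a ha) (hℓ a)
          · have := ball_inv (ball_mono (hc _ ha) (hℓ a⁻¹))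
            simpa using this
        have h3 := ball_mul h2 h1
        rw [List.prod_cons, List.length_cons]
        refine ball_mono (le_of_eq ?_) h3
        ring
    exact ball_mono (Nat.mul_le_mul_left _ hl) (this l hl')
  have hmono : Monotone fun n => (ball Z n).ncard := fun m n hmn =>
    Set.ncard_le_ncard (ball_mono hmn) (ball_finite hZ n)
  refine (hsub.comp_mul hmono c).mono fun n => ?_
  exact Set.ncard_le_ncard (hsubset n) (ball_finite hZ _)

end image

section count

private lemma card_pair_eq {α β : Type*} [DecidableEq α] [DecidableEq β] (π : α → β)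
    (B : Finset α) (t : ℕ) (ht : ∀ b : β, (B.filter (fun z => π z = b)).card ≤ t) (k : ℕ)
    {i j : Fin (k + 1)} (hij : i ≠ j) :
    ((Fintype.piFinset (fun _ : Fin (k + 1) => B)).filter (fun x => π (x i) = π (x j))).card ≤
      t * B.card ^ k := by
  have h : (Fintype.piFinset (fun _ : Fin k => B)).card = B.card ^ k := by
    simp
  rw [← h]
  refine Finset.card_le_mul_card_image_of_maps_to (f := fun x => Fin.removeNth j x) ?_ t ?_
  · intro x hx
    have hx1 := Fintype.mem_piFinset.1 (Finset.mem_filter.1 hx).1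
    rw [Fintype.mem_piFinset]
    intro s
    exact hx1 _
  · intro b _
    obtain ⟨s, hs⟩ := Fin.exists_succAbove_eq hij
    refine le_trans ?_ (ht (π (b s)))
    refine Finset.card_le_card_of_injOn (fun x => x j) ?_ ?_
    · intro x hx
      obtain ⟨hx1, hx2⟩ := Finset.mem_filter.1 (Finset.mem_coe.1 hx)
      obtain ⟨hx3, hx4⟩ := Finset.mem_filter.1 hx1
      refine Finset.mem_coe.2 (Finset.mem_filter.2 ⟨Fintype.mem_piFinset.1 hx3 j, ?_⟩)
      have e : b s = x i := by
        rw [← hx2, ← hs]
        rfl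
      rw [e]
      exact hx4.symm
    · intro x hx y hy hxy
      obtain ⟨hx1, hx2⟩ := Finset.mem_filter.1 (Finset.mem_coe.1 hx)
      obtain ⟨hy1, hy2⟩ := Finset.mem_filter.1 (Finset.mem_coe.1 hy)
      funext r
      by_cases hr : r = j
      · subst hr; exact hxy
      · obtain ⟨q, rfl⟩ := Fin.exists_succAbove_eq hr
        exact congrFun (hx2.trans hy2.symm) q

private lemma card_not_inj {α β : Type*} [DecidableEq α] [DecidableEq β] (π : α → β)
    (B : Finset α) (t : ℕ) (ht : ∀ b : β, (B.filter (fun z => π z = b)).card ≤ t) (k : ℕ) :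
    ((Fintype.piFinset (fun _ : Fin (k + 1) => B)).filter
      (fun x => ¬ Function.Injective fun i => π (x i))).card ≤ (k + 1) ^ 2 * (t * B.card ^ k) := by
  have hsub : ((Fintype.piFinset (fun _ : Fin (k + 1) => B)).filter
      (fun x => ¬ Function.Injective fun i => π (x i))) ⊆
      (((Finset.univ : Finset (Fin (k + 1) × Fin (k + 1))).filter (fun p => p.1 ≠ p.2)).biUnion
        (fun p => (Fintype.piFinset (fun _ : Fin (k + 1) => B)).filter
          (fun x => π (x p.1) = π (x p.2)))) := by
    intro x hx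
    obtain ⟨hx1, hx2⟩ := Finset.mem_filter.1 hx
    rw [Function.not_injective_iff] at hx2
    obtain ⟨i, j, hij, hne⟩ := hx2
    refine Finset.mem_biUnion.2 ⟨(i, j), ?_, ?_⟩
    · simpa using hne
    · exact Finset.mem_filter.2 ⟨hx1, hij⟩
  refine (Finset.card_le_card hsub).trans ?_
  refine (Finset.card_biUnion_le_card_mul _ _ (t * B.card ^ k) ?_).trans ?_
  · intro p hp
    exact card_pair_eq π B t ht k (Finset.mem_filter.1 hp).2
  · refine Nat.mul_le_mul_right _ ?_
    refine (Finset.card_filter_le _ _).trans ?_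
    simp [sq]

/-- The counting inequality. -/
private lemma count_ineq {α β : Type*} [DecidableEq α] [DecidableEq β] (π : α → β)
    (B : Finset α) (t : ℕ) (ht : ∀ b : β, (B.filter (fun z => π z = b)).card ≤ t)
    (R : α → α → Prop)
    [∀ x y, Decidable (R x y)] (k : ℕ) (e : ℝ) (he : 0 ≤ e) (hB : 0 < B.card)
    (H : ∀ S : Finset α, Set.InjOn π S → k + 1 ≤ S.card →
      ((B.filter (fun y => ∀ x ∈ S, R x y)).card : ℝ) ≤ e * B.card) :
    ((((B ×ˢ B).filter (fun p => R p.1 p.2)).card : ℝ) / (B.card : ℝ) ^ 2) ^ (k + 1) ≤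
      e + (k + 1) ^ 2 * (t / B.card) := by
  set b : ℝ := (B.card : ℝ) with hb
  have hb0 : 0 < b := by rw [hb]; exact_mod_cast hB
  let h : α → ℝ := fun y => ((B.filter (fun x => R x y)).card : ℝ)
  have hsum : (((B ×ˢ B).filter (fun p => R p.1 p.2)).card : ℝ) = ∑ y ∈ B, h y := by
    simp only [h]
    rw [Finset.card_filter, Finset.sum_product_right]
    push_cast
    refine Finset.sum_congr rfl fun y _ => ?_
    rw [Finset.card_filter]
    push_cast
    rfl
  set a : ℝ := (((B ×ˢ B).filter (fun p => R p.1 p.2)).card : ℝ) with ha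
  have hpm := pow_sum_div_card_le_sum_pow (s := B) (f := h) (fun y _ => Nat.cast_nonneg _) k
  rw [← hsum] at hpm
  have hpow : ∀ y, h y ^ (k + 1) =
      (((Fintype.piFinset (fun _ : Fin (k + 1) => B)).filter (fun x => ∀ i, R (x i) y)).card : ℝ) := by
    intro y
    have : (Fintype.piFinset (fun _ : Fin (k + 1) => B)).filter (fun x => ∀ i, R (x i) y) =
        Fintype.piFinset (fun _ : Fin (k + 1) => B.filter (fun x => R x y)) := by
      ext x
      simp only [Finset.mem_filter, Fintype.mem_piFinset]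
      constructor
      · rintro ⟨h1, h2⟩ i
        exact ⟨h1 i, h2 i⟩
      · intro h1
        exact ⟨fun i => (h1 i).1, fun i => (h1 i).2⟩
    rw [this]
    simp [h]
  have hswap : ∑ y ∈ B, h y ^ (k + 1) =
      ∑ x ∈ Fintype.piFinset (fun _ : Fin (k + 1) => B),
        ((B.filter (fun y => ∀ i, R (x i) y)).card : ℝ) := by
    calc ∑ y ∈ B, h y ^ (k + 1) = ∑ y ∈ B, ∑ x ∈ Fintype.piFinset (fun _ : Fin (k + 1) => B),
          (if ∀ i, R (x i) y then (1 : ℝ) else 0) := by
          refine Finset.sum_congr rfl fun y _ => ?_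
          rw [hpow, Finset.card_filter]
          push_cast
          rfl
      _ = ∑ x ∈ Fintype.piFinset (fun _ : Fin (k + 1) => B), ∑ y ∈ B,
          (if ∀ i, R (x i) y then (1 : ℝ) else 0) := Finset.sum_comm
      _ = _ := by
          refine Finset.sum_congr rfl fun x _ => ?_
          rw [Finset.card_filter]
          push_cast
          rfl
  have hbound : ∑ x ∈ Fintype.piFinset (fun _ : Fin (k + 1) => B),
        ((B.filter (fun y => ∀ i, R (x i) y)).card : ℝ) ≤
        b ^ (k + 1) * (e * b) + (k + 1) ^ 2 * (t * b ^ k) * b := by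
    rw [← Finset.sum_filter_add_sum_filter_not _ (fun x => Function.Injective fun i => π (x i))]
    refine add_le_add ?_ ?_
    · calc _ ≤ ∑ x ∈ (Fintype.piFinset (fun _ : Fin (k + 1) => B)).filter
            (fun x => Function.Injective fun i => π (x i)), e * b := by
            refine Finset.sum_le_sum fun x hx => ?_
            have hinj := (Finset.mem_filter.1 hx).2
            have hinj' : Function.Injective x := fun i j hij => hinj (by simp [hij])
            have h1 := H (Finset.univ.image x) (by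
              intro p hp q hq hpq
              rw [Finset.mem_coe, Finset.mem_image] at hp hq
              obtain ⟨i, _, rfl⟩ := hp
              obtain ⟨j, _, rfl⟩ := hq
              rw [hinj hpq]) (by
              rw [Finset.card_image_of_injective _ hinj']; simp)
            refine le_trans (le_of_eq ?_) h1
            congr 2
            ext y
            simp
        _ = (((Fintype.piFinset (fun _ : Fin (k + 1) => B)).filter
            (fun x => Function.Injective fun i => π (x i))).card : ℝ) * (e * b) := by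
            rw [Finset.sum_const, nsmul_eq_mul]
        _ ≤ b ^ (k + 1) * (e * b) := by
            refine mul_le_mul_of_nonneg_right ?_ (by positivity)
            have h2 : ((Fintype.piFinset (fun _ : Fin (k + 1) => B)).filter
              (fun x => Function.Injective fun i => π (x i))).card ≤ B.card ^ (k + 1) := by
              refine (Finset.card_filter_le _ _).trans ?_
              simp
            rw [hb]
            exact_mod_cast h2
    · calc _ ≤ ∑ x ∈ (Fintype.piFinset (fun _ : Fin (k + 1) => B)).filter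
            (fun x => ¬ Function.Injective fun i => π (x i)), b := by
            refine Finset.sum_le_sum fun x _ => ?_
            rw [hb]
            exact_mod_cast Finset.card_filter_le _ _
        _ = (((Fintype.piFinset (fun _ : Fin (k + 1) => B)).filter
            (fun x => ¬ Function.Injective fun i => π (x i))).card : ℝ) * b := by
            rw [Finset.sum_const, nsmul_eq_mul]
        _ ≤ (k + 1) ^ 2 * (t * b ^ k) * b := by
            refine mul_le_mul_of_nonneg_right ?_ hb0.le
            have h2 := card_not_inj π B t ht k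
            rw [hb]
            exact_mod_cast h2
  have hfin : a ^ (k + 1) / b ^ k ≤ b ^ (k + 1) * (e * b) + (k + 1) ^ 2 * (t * b ^ k) * b :=
    hpm.trans (hswap.le.trans hbound)
  rw [div_le_iff₀ (by positivity)] at hfin
  rw [div_pow, div_le_iff₀ (by positivity)]
  calc a ^ (k + 1) ≤ (b ^ (k + 1) * (e * b) + (k + 1) ^ 2 * (t * b ^ k) * b) * b ^ k := hfin
    _ = (e + (k + 1) ^ 2 * (t / b)) * (b ^ 2) ^ (k + 1) := by
        field_simp
        ring

variable {G β : Type*} [Group G]

/-- Conclusion by the power mean inequality; version for sets with distinct images under `π`. -/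
theorem tdc_tendsto {X : Set G} (hX : X.Finite) (φ : G →* G) (π : G → β)
    (hfib : ∀ ε : ℝ, 0 < ε → ∃ n₀, ∀ n ≥ n₀, ∀ b : β,
      (({y | y ∈ ball X n ∧ π y = b}).ncard : ℝ) ≤ ε * (ball X n).ncard) (k : ℕ)
    (H : ∀ ε : ℝ, 0 < ε → ∃ n₀, ∀ n ≥ n₀, ∀ S : Finset G, Set.InjOn π S → k ≤ S.card →
      (({y | y ∈ ball X n ∧ ∀ x ∈ S, x * y = y * φ x}).ncard : ℝ) ≤ ε * (ball X n).ncard) :
    Tendsto (fun n : ℕ =>
      (({p : G × G | p.1 ∈ ball X n ∧ p.2 ∈ ball X n ∧ p.1 * p.2 = p.2 * φ p.1}).ncard : ℝ) /
        ((ball X n).ncard : ℝ) ^ 2) atTop (𝓝 0) := by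
  classical
  rw [Metric.tendsto_atTop]
  intro η hη
  have hη2 : 0 < (η / 2) ^ (k + 1) / 2 := by positivity
  have hη3 : 0 < (η / 2) ^ (k + 1) / 2 / ((k : ℝ) + 1) ^ 2 := by positivity
  obtain ⟨n₁, hn₁⟩ := H _ hη2
  obtain ⟨n₂, hn₂⟩ := hfib _ hη3
  refine ⟨max n₁ n₂, fun n hn => ?_⟩
  have hn1 : n₁ ≤ n := le_trans (le_max_left _ _) hn
  have hn2 : n₂ ≤ n := le_trans (le_max_right _ _) hn
  set B : Finset G := (ball_finite hX n).toFinset with hBdef
  have hBmem : ∀ g, g ∈ B ↔ g ∈ ball X n := fun g => by rw [hBdef, Set.Finite.mem_toFinset]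
  have hBcard : (ball X n).ncard = B.card := Set.ncard_eq_toFinset_card _ (ball_finite hX n)
  have hBpos : 0 < B.card := by rw [← hBcard]; exact ncard_ball_pos hX n
  have hBposR : (0 : ℝ) < (B.card : ℝ) := by exact_mod_cast hBpos
  have hpairs : ({p : G × G | p.1 ∈ ball X n ∧ p.2 ∈ ball X n ∧ p.1 * p.2 = p.2 * φ p.1}).ncard =
      ((B ×ˢ B).filter (fun p => p.1 * p.2 = p.2 * φ p.1)).card := by
    rw [← Set.ncard_coe_finset]
    congr 1
    ext p
    simp only [Set.mem_setOf_eq, Finset.coe_filter, Finset.mem_product, hBmem]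
    tauto
  set t : ℕ := ⌊(η / 2) ^ (k + 1) / 2 / ((k : ℝ) + 1) ^ 2 * B.card⌋₊ with ht
  have htle : (t : ℝ) ≤ (η / 2) ^ (k + 1) / 2 / ((k : ℝ) + 1) ^ 2 * B.card :=
    Nat.floor_le (by positivity)
  have hmain := count_ineq π B t (by
    intro b
    refine Nat.le_floor ?_
    have h1 := hn₂ n hn2 b
    rw [hBcard] at h1
    refine le_trans (le_of_eq ?_) h1
    congr 1
    rw [← Set.ncard_coe_finset]
    congr 1
    ext y
    simp only [Set.mem_setOf_eq, Finset.coe_filter, hBmem])
    (fun x y => x * y = y * φ x) k _ hη2.le hBpos (by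
    intro S hSi hS
    have h1 := hn₁ n hn1 S hSi (by omega)
    rw [hBcard] at h1
    refine le_trans (le_of_eq ?_) h1
    congr 1
    rw [← Set.ncard_coe_finset]
    congr 1
    ext y
    simp only [Set.mem_setOf_eq, Finset.coe_filter, hBmem])
  rw [hpairs, hBcard]
  set r : ℝ := (((B ×ˢ B).filter (fun p => p.1 * p.2 = p.2 * φ p.1)).card : ℝ) /
    (B.card : ℝ) ^ 2 with hr
  have hr0 : 0 ≤ r := by rw [hr]; positivity
  have h3 : ((k : ℝ) + 1) ^ 2 * ((t : ℝ) / B.card) ≤ (η / 2) ^ (k + 1) / 2 := by
    have h4 : (t : ℝ) / B.card ≤ (η / 2) ^ (k + 1) / 2 / ((k : ℝ) + 1) ^ 2 := by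
      rw [div_le_iff₀ hBposR]
      exact htle
    calc ((k : ℝ) + 1) ^ 2 * ((t : ℝ) / B.card) ≤
        ((k : ℝ) + 1) ^ 2 * ((η / 2) ^ (k + 1) / 2 / ((k : ℝ) + 1) ^ 2) :=
          mul_le_mul_of_nonneg_left h4 (by positivity)
      _ = (η / 2) ^ (k + 1) / 2 := by field_simp
  have h5 : r ^ (k + 1) ≤ (η / 2) ^ (k + 1) := by
    refine hmain.trans ?_
    linarith
  have h6 : r ≤ η / 2 := (pow_le_pow_iff_left₀ hr0 (by positivity) (by omega)).1 h5
  rw [Real.dist_eq, sub_zero, abs_of_nonneg hr0]
  linarith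

end count

end Pool.Agent.AcylTdc2
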