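import Pool.Agent.AcylTdc2.Count
import Pool.Agent.AcylTdc.Main

/-!
# Direct products of an acylindrically hyperbolic group with a group of subexponential growth
-/

open Filter Topology Set Pool.Agent.TwistedRatio Pool.Agent.AcylTdc

namespace Pool.Agent.AcylTdc2

variable {H V Y : Type*} [Group H] [Group V] [MetricSpace Y] [MulAction H Y]
  [IsIsometricSMul H Y] {δ : ℝ}

theorem closure_fst {X : Set (H × V)} (hgen : Subgroup.closure X = ⊤) :
    Subgroup.closure (MonoidHom.fst H V '' X) = ⊤ := by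
  rw [← MonoidHom.map_closure, hgen, ← MonoidHom.range_eq_map]
  exact MonoidHom.range_eq_top.2 fun a => ⟨(a, 1), rfl⟩

theorem growth_prod {X : Set (H × V)} (hX : X.Finite)
    (hgrow : ∃ c : ℕ, 1 ≤ c ∧ ∀ n, 2 ^ n ≤ (ball (MonoidHom.fst H V '' X) (c * n)).ncard) :
    ∃ c : ℕ, 1 ≤ c ∧ ∀ n, 2 ^ n ≤ (ball X (c * n)).ncard := by
  obtain ⟨c, hc, h⟩ := hgrow
  refine ⟨c, hc, fun n => (h n).trans ?_⟩
  rw [ball_image]
  exact Set.ncard_image_le (ball_finite hX _)

/-- the elements of a ball with first coordinate in a set -/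
theorem card_fst_mem {X : Set (H × V)} (hX : X.Finite) (n : ℕ) (D : Set H) (S : Set (H × V))
    (hS : S ⊆ ball X n) (hD : ∀ g ∈ S, g.1 ∈ D) :
    S.ncard ≤ (D ∩ ball (MonoidHom.fst H V '' X) n).ncard *
      (ball (MonoidHom.snd H V '' X) n).ncard := by
  have hf1 : (D ∩ ball (MonoidHom.fst H V '' X) n).Finite :=
    (ball_finite (hX.image _) n).subset Set.inter_subset_right
  have hf2 := ball_finite (hX.image (MonoidHom.snd H V)) n
  rw [← Set.ncard_prod]
  refine Set.ncard_le_ncard ?_ (hf1.prod hf2)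
  intro g hg
  refine ⟨⟨hD g hg, ?_⟩, ?_⟩
  · rw [ball_image]
    exact ⟨g, hS hg, rfl⟩
  · rw [ball_image]
    exact ⟨g, hS hg, rfl⟩

theorem subExp_linear (A : ℕ) : SubExp fun n => A * (n + 1) :=
  (subExp_const A).mul (subExp_id.add (subExp_const 1))

/-- anti-concentration in the direct product -/
theorem anti_concentration (h : Hyp Y δ) (hδ : 0 ≤ δ) (hgeo : Geod Y) (hac : Acyl H Y) {f : H}
    {o : Y} {C : ℝ} (ax : Axis δ f o C) {X : Set (H × V)} (hX : X.Finite)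
    (hgen : Subgroup.closure X = ⊤)
    (hgrow : ∃ c : ℕ, 1 ≤ c ∧ ∀ n, 2 ^ n ≤ (ball X (c * n)).ncard)
    (hV : SubexpGrowth V) (R : ℝ) {ε : ℝ} (hε : 0 < ε) :
    ∃ n₀, ∀ n ≥ n₀, ∀ P Q : Y,
      (({g : H × V | g ∈ ball X n ∧ dist (g.1 • P) Q ≤ R}).ncard : ℝ) ≤
        ε * (ball X n).ncard := by
  obtain ⟨M, hM1, hM⟩ := separation h hδ hac ax (2 * R)
  obtain ⟨A, hA⟩ := centralizer_linear h hδ hgeo hac
    (hX.image (MonoidHom.fst H V)) o
  have hA' : ∀ n, ({c | c * f ^ M = f ^ M * c} ∩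
      ball (MonoidHom.fst H V '' X) n).ncard ≤ A * (n + 1) := by
    intro n
    have h1 := hA (Set.range fun k : ℕ => (f ^ M) ^ k) (by
      intro r
      obtain ⟨k, hk⟩ := exists_nat_gt r
      refine ⟨(f ^ M) ^ k, ⟨k, rfl⟩, ?_⟩
      rw [← pow_mul]
      refine hk.trans_le (le_trans ?_ (ax.lower (M * k)))
      exact_mod_cast Nat.le_mul_of_pos_left k hM1) n
    refine le_trans (Set.ncard_le_ncard ?_
      ((ball_finite (hX.image _) n).subset Set.inter_subset_right)) h1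
    rintro c ⟨hc, hc'⟩
    refine ⟨?_, hc'⟩
    rintro z ⟨k, rfl⟩
    exact (Commute.pow_right (show Commute c (f ^ M) from hc) k).eq
  set F : H × V := (f ^ M, 1) with hF
  set u : ℕ → ℕ := fun n => (A * (n + 1)) * (ball (MonoidHom.snd H V '' X) n).ncard with hu
  have hcent : ∀ n, ({c | c * F = F * c} ∩ ball X n).ncard ≤ u n := by
    intro n
    refine (card_fst_mem hX n {c | c * f ^ M = f ^ M * c} _ Set.inter_subset_right ?_).trans ?_
    · rintro g ⟨hg, _⟩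
      exact congrArg Prod.fst hg
    · exact Nat.mul_le_mul_right _ (hA' n)
  have husub : SubExp fun n => u (2 * n) := by
    have h1 : SubExp u := (subExp_linear A).mul (hV.subExp (hX.image _))
    refine h1.comp_mul ?_ 2
    intro m n hmn
    refine Nat.mul_le_mul (Nat.mul_le_mul_left _ (by omega)) ?_
    exact Set.ncard_le_ncard (ball_mono hmn) (ball_finite (hX.image _) n)
  obtain ⟨w, hw⟩ := exists_mem_ball hgen F
  obtain ⟨m, hm⟩ := exists_nat_ge (2 * ((ball X w).ncard : ℝ) / ε)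
  have hb : (0 : ℝ) < ((ball X w).ncard : ℝ) := by exact_mod_cast ncard_ball_pos hX w
  have hm0 : (0 : ℝ) < m := lt_of_lt_of_le (by positivity) hm
  obtain ⟨n₀, hn₀⟩ := few_negligible hX F u hcent husub hgrow m (half_pos hε)
  refine ⟨n₀, fun n hn P Q => ?_⟩
  have h1 := insert_count hX hw n m (S := {g : H × V | g ∈ ball X n ∧ dist (g.1 • P) Q ≤ R})
    (fun g hg => hg.1) (by
      intro g hg k hk p q hpq
      have hpq1 : (p.1 * f ^ M * p.1⁻¹) * g.1 = (q.1 * f ^ M * q.1⁻¹) * k.1 :=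
        congrArg Prod.fst hpq
      have key : p.1 * f ^ M * p.1⁻¹ = q.1 * f ^ M * q.1⁻¹ := by
        refine hM p.1 q.1 Q ?_
        have e1 : dist ((p.1 * f ^ M * p.1⁻¹) • Q) (((p.1 * f ^ M * p.1⁻¹) * g.1) • P) ≤ R := by
          rw [mul_smul _ g.1, dist_smul, dist_comm]
          exact hg.2
        have e2 : dist (((q.1 * f ^ M * q.1⁻¹) * k.1) • P) ((q.1 * f ^ M * q.1⁻¹) • Q) ≤ R := by
          rw [mul_smul _ k.1, dist_smul]
          exact hk.2
        rw [hpq1] at e1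
        have e3 := dist_triangle ((p.1 * f ^ M * p.1⁻¹) • Q)
          (((q.1 * f ^ M * q.1⁻¹) * k.1) • P) ((q.1 * f ^ M * q.1⁻¹) • Q)
        linarith
      refine Prod.ext key ?_
      simp [hF])
  have h2 := ncard_ball_add_le hX n w
  have h3 := hn₀ n hn
  have h4 : (m : ℝ) * (({g : H × V | g ∈ ball X n ∧ dist (g.1 • P) Q ≤ R}).ncard : ℝ) ≤
      ((ball X n).ncard : ℝ) * ((ball X w).ncard : ℝ) + m * ((few X F m n).ncard : ℝ) := by
    have : m * ({g : H × V | g ∈ ball X n ∧ dist (g.1 • P) Q ≤ R}).ncard ≤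
        (ball X n).ncard * (ball X w).ncard + m * (few X F m n).ncard := by omega
    exact_mod_cast this
  have h5 : 2 * ((ball X w).ncard : ℝ) ≤ m * ε := by
    rwa [div_le_iff₀ hε] at hm
  have h6 : ((ball X n).ncard : ℝ) * ((ball X w).ncard : ℝ) ≤
      ((ball X n).ncard : ℝ) * (m * ε / 2) :=
    mul_le_mul_of_nonneg_left (by linarith) (Nat.cast_nonneg _)
  have h7 : (m : ℝ) * ((few X F m n).ncard : ℝ) ≤ m * (ε / 2 * ((ball X n).ncard : ℝ)) :=
    mul_le_mul_of_nonneg_left h3 hm0.le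
  refine le_of_mul_le_mul_left ?_ hm0
  linarith

/-- cosets of centralizers of sets with many first coordinates are uniformly negligible -/
theorem centralizer_negligible (h : Hyp Y δ) (hδ : 0 ≤ δ) (hgeo : Geod Y) (hac : Acyl H Y) {f : H}
    {o : Y} {C : ℝ} (ax : Axis δ f o C) {X : Set (H × V)} (hX : X.Finite)
    (hgen : Subgroup.closure X = ⊤)
    (hgrow : ∃ c : ℕ, 1 ≤ c ∧ ∀ n, 2 ^ n ≤ (ball X (c * n)).ncard) (hV : SubexpGrowth V) :
    ∃ k : ℕ, ∀ ε : ℝ, 0 < ε → ∃ n₀, ∀ n ≥ n₀, ∀ (φ : H × V →* H × V) (S : Finset (H × V)),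
      Set.InjOn (Prod.fst : H × V → H) S → k ≤ S.card →
      (({y | y ∈ ball X n ∧ ∀ x ∈ S, x * y = y * φ x}).ncard : ℝ) ≤ ε * (ball X n).ncard := by
  classical
  obtain ⟨R₁, N, hRN⟩ := hac (4 * δ + 2)
  obtain ⟨A, hA⟩ := centralizer_linear h hδ hgeo hac (hX.image (MonoidHom.fst H V)) o
  refine ⟨N + 1, fun ε hε => ?_⟩
  obtain ⟨n₁, hn₁⟩ := anti_concentration h hδ hgeo hac ax hX hgen hgrow hV R₁ hε
  set u : ℕ → ℕ := fun n => (A * (n + 1)) * (ball (MonoidHom.snd H V '' X) n).ncard with hu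
  have husub : SubExp fun n => u (2 * n) := by
    have h1 : SubExp u := (subExp_linear A).mul (hV.subExp (hX.image _))
    refine h1.comp_mul ?_ 2
    intro m n hmn
    refine Nat.mul_le_mul (Nat.mul_le_mul_left _ (by omega)) ?_
    exact Set.ncard_le_ncard (ball_mono hmn) (ball_finite (hX.image _) n)
  obtain ⟨n₂, hn₂⟩ := husub.negligible hX hgrow hε
  refine ⟨max n₁ n₂, fun n hn φ S hSi hS => ?_⟩
  have hnn₁ : n₁ ≤ n := (le_max_left _ _).trans hn
  have hnn₂ : n₂ ≤ n := (le_max_right _ _).trans hn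
  set E : Set (H × V) := {y | y ∈ ball X n ∧ ∀ x ∈ S, x * y = y * φ x} with hE
  have hEfin : E.Finite := (ball_finite hX n).subset fun y hy => hy.1
  rcases E.eq_empty_or_nonempty with h0 | ⟨y₀, hy₀⟩
  · rw [h0, Set.ncard_empty, Nat.cast_zero]
    positivity
  have hcomm : ∀ y ∈ E, ∀ x ∈ S, (y * y₀⁻¹) * x = x * (y * y₀⁻¹) := by
    intro y hy x hx
    have h1 := hy.2 x hx
    have h2 := hy₀.2 x hx
    have h3 : φ x = y₀⁻¹ * (x * y₀) := by rw [h2]; group
    rw [h3] at h1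
    calc (y * y₀⁻¹) * x = (y * (y₀⁻¹ * (x * y₀))) * y₀⁻¹ := by group
      _ = (x * y) * y₀⁻¹ := by rw [← h1]
      _ = x * (y * y₀⁻¹) := by group
  have hcomm1 : ∀ y ∈ E, ∀ x ∈ S, (y.1 * y₀.1⁻¹) * x.1 = x.1 * (y.1 * y₀.1⁻¹) :=
    fun y hy x hx => congrArg Prod.fst (hcomm y hy x hx)
  set S₁ : Finset H := S.image Prod.fst with hS₁
  have hS₁card : S₁.card = S.card := Finset.card_image_of_injOn hSi
  set D : Subgroup H := Subgroup.closure (S₁ : Set H) with hD
  have hmemS₁ : ∀ a ∈ S₁, ∃ x ∈ S, x.1 = a := fun a ha => by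
    simpa [hS₁] using ha
  have hcommD : ∀ y ∈ E, ∀ z ∈ D, (y.1 * y₀.1⁻¹) * z = z * (y.1 * y₀.1⁻¹) := by
    intro y hy z hz
    have h1 : D ≤ Subgroup.centralizer {y.1 * y₀.1⁻¹} := by
      rw [hD, Subgroup.closure_le]
      intro a ha
      obtain ⟨x, hx, rfl⟩ := hmemS₁ a ha
      rw [SetLike.mem_coe, Subgroup.mem_centralizer_singleton_iff]
      exact (hcomm1 y hy x hx).symm
    have h2 := h1 hz
    rw [Subgroup.mem_centralizer_singleton_iff] at h2
    exact h2.symm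
  by_cases hunb : ∀ R : ℝ, ∃ z ∈ D, R < dist o (z • o)
  · -- unbounded case
    have h1 : E.ncard ≤ ((fun y => y * y₀⁻¹) '' E).ncard := by
      rw [Set.ncard_image_of_injective]
      intro a b hab
      exact mul_right_cancel hab
    have h2 : ((fun y => y * y₀⁻¹) '' E).ncard ≤ u (2 * n) := by
      refine (card_fst_mem hX (2 * n) {c : H | ∀ z ∈ (D : Set H), c * z = z * c} _ ?_ ?_).trans ?_
      · rintro _ ⟨y, hy, rfl⟩
        rw [two_mul]
        exact ball_mul hy.1 (ball_inv hy₀.1)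
      · rintro _ ⟨y, hy, rfl⟩ z hz
        exact hcommD y hy z hz
      · exact Nat.mul_le_mul_right _ (hA (D : Set H) hunb (2 * n))
    have h3 : (E.ncard : ℝ) ≤ (u (2 * n) : ℕ) := by exact_mod_cast h1.trans h2
    exact h3.trans (hn₂ n hnn₂)
  · -- bounded case
    push Not at hunb
    obtain ⟨B, hB⟩ := hunb
    obtain ⟨p, hp⟩ := quasi_center h hδ hgeo D ⟨o, B, hB⟩
    have hclose : ∀ y ∈ E, dist (y.1 • (y₀.1⁻¹ • p)) p ≤ R₁ := by
      intro y hy
      by_contra hcon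
      push Not at hcon
      have h1 : R₁ ≤ dist p ((y.1 * y₀.1⁻¹) • p) := by
        rw [dist_comm, mul_smul]
        exact hcon.le
      have h2 := hRN p ((y.1 * y₀.1⁻¹) • p) h1
      have h3 : (S₁ : Set H) ⊆ {g : H | dist p (g • p) ≤ 4 * δ + 2 ∧
          dist ((y.1 * y₀.1⁻¹) • p) (g • ((y.1 * y₀.1⁻¹) • p)) ≤ 4 * δ + 2} := by
        intro a ha
        have haD : a ∈ D := Subgroup.subset_closure ha
        obtain ⟨x, hx, rfl⟩ := hmemS₁ a ha
        refine ⟨hp x.1 haD, ?_⟩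
        have e1 : x.1 • ((y.1 * y₀.1⁻¹) • p) = (y.1 * y₀.1⁻¹) • (x.1 • p) := by
          rw [smul_smul, smul_smul, hcomm1 y hy x hx]
        rw [e1, dist_smul]
        exact hp x.1 haD
      have h4 : ((S₁.card : ℕ) : ℕ∞) ≤ (N : ℕ∞) := by
        rw [← Set.encard_coe_eq_coe_finsetCard]
        exact (Set.encard_le_encard h3).trans h2
      have h5 : S₁.card ≤ N := by exact_mod_cast h4
      omega
    have h1 := hn₁ n hnn₁ (y₀.1⁻¹ • p) p
    refine le_trans ?_ h1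
    have h2 : E ⊆ {g : H × V | g ∈ ball X n ∧ dist (g.1 • (y₀.1⁻¹ • p)) p ≤ R₁} :=
      fun y hy => ⟨hy.1, hclose y hy⟩
    exact_mod_cast Set.ncard_le_ncard h2 ((ball_finite hX n).subset fun y hy => hy.1)

/-- The main theorem for an explicit action. -/
theorem tdc_tendsto_zero (hY : ∃ δ, Hyp Y δ) (hgeo : Geod Y) (hac : Acyl H Y)
    (hunb : UnbddOrbits H Y) (hnvc : ¬ VirtCyclic H) (hV : SubexpGrowth V) {X : Set (H × V)}
    (hX : X.Finite) (hgen : Subgroup.closure X = ⊤) (φ : H × V →* H × V) :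
    Tendsto (fun n : ℕ =>
      (({p : (H × V) × (H × V) | p.1 ∈ ball X n ∧ p.2 ∈ ball X n ∧
        p.1 * p.2 = p.2 * φ p.1}).ncard : ℝ) / ((ball X n).ncard : ℝ) ^ 2) atTop (𝓝 0) := by
  obtain ⟨δ, h⟩ := hY
  obtain ⟨o, _⟩ := id hunb
  haveI : Nonempty Y := ⟨o⟩
  have hδ := h.nonneg
  have hX1 := hX.image (MonoidHom.fst H V)
  have hgen1 := closure_fst hgen
  obtain ⟨f, hf⟩ := exists_lox h hδ hgeo hac hX1 hgen1 hunb
  obtain ⟨m, hm, C, ax⟩ := hf.exists_axis h hδ o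
  have hgrow := growth_prod hX (exists_growth h hδ hac hnvc ax hX1 hgen1)
  obtain ⟨k, hk⟩ := centralizer_negligible h hδ hgeo hac ax hX hgen hgrow hV
  refine tdc_tendsto hX φ (Prod.fst : H × V → H) (fun ε hε => ?_) k fun ε hε => ?_
  · obtain ⟨n₀, hn₀⟩ := anti_concentration h hδ hgeo hac ax hX hgen hgrow hV 0 hε
    refine ⟨n₀, fun n hn b => le_trans ?_ (hn₀ n hn o (b • o))⟩
    have h2 : {y : H × V | y ∈ ball X n ∧ y.1 = b} ⊆
        {g : H × V | g ∈ ball X n ∧ dist (g.1 • o) (b • o) ≤ 0} := by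
      rintro y ⟨hy, hyb⟩
      exact ⟨hy, by rw [hyb, dist_self]⟩
    exact_mod_cast Set.ncard_le_ncard h2 ((ball_finite hX n).subset fun y hy => hy.1)
  · obtain ⟨n₀, hn₀⟩ := hk ε hε
    exact ⟨n₀, fun n hn S hSi hS => hn₀ n hn φ S hSi hS⟩

/-- **Theorem.** The degree of twisted commutativity of the direct product of an acylindrically
hyperbolic group and a group of subexponential growth is zero. -/
theorem tdc_eq_zero.{u, v, w} {H : Type u} [Group H] {V : Type w} [Group V]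
    (hH : AcylHyp.{u, v} H) (hV : SubexpGrowth V) {X : Set (H × V)} (hX : X.Finite)
    (hgen : Subgroup.closure X = ⊤) (φ : H × V →* H × V) :
    tdc X φ = 0 ∧ Tendsto (fun n : ℕ =>
      (({p : (H × V) × (H × V) | p.1 ∈ ball X n ∧ p.2 ∈ ball X n ∧
        p.1 * p.2 = p.2 * φ p.1}).ncard : ℝ) / ((ball X n).ncard : ℝ) ^ 2) atTop (𝓝 0) := by
  obtain ⟨hnvc, Y, i1, i2, hiso, hY, hgeo, hac, hunb⟩ := hH
  have := tdc_tendsto_zero hY hgeo hac hunb hnvc hV hX hgen φ
  exact ⟨this.limsup_eq, this⟩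

end Pool.Agent.AcylTdc2
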