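import Pool.Agent.AcylTdc.AxisDef

/-!
# Subexponential sequences and groups of subexponential growth
-/

open Filter Topology Set Pool.Agent.TwistedRatio

namespace Pool.Agent.AcylTdc2

/-- A sequence of natural numbers with subexponential growth. -/
def SubExp (u : ℕ → ℕ) : Prop := ∀ r : ℝ, 1 < r → ∃ n₀ : ℕ, ∀ n ≥ n₀, (u n : ℝ) ≤ r ^ n

theorem SubExp.mono {u v : ℕ → ℕ} (hv : SubExp v) (h : ∀ n, u n ≤ v n) : SubExp u := by
  intro r hr
  obtain ⟨n₀, hn₀⟩ := hv r hr
  exact ⟨n₀, fun n hn => le_trans (by exact_mod_cast h n) (hn₀ n hn)⟩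

theorem SubExp.mul {u v : ℕ → ℕ} (hu : SubExp u) (hv : SubExp v) : SubExp fun n => u n * v n := by
  intro r hr
  have hs : 1 < Real.sqrt r := by
    rw [Real.lt_sqrt (by norm_num)]
    simpa using hr
  obtain ⟨n₁, hn₁⟩ := hu _ hs
  obtain ⟨n₂, hn₂⟩ := hv _ hs
  refine ⟨max n₁ n₂, fun n hn => ?_⟩
  have h1 := hn₁ n ((le_max_left _ _).trans hn)
  have h2 := hn₂ n ((le_max_right _ _).trans hn)
  push_cast
  calc (u n : ℝ) * v n ≤ Real.sqrt r ^ n * Real.sqrt r ^ n :=
        mul_le_mul h1 h2 (Nat.cast_nonneg _) (by positivity)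
    _ = r ^ n := by
        rw [← mul_pow, Real.mul_self_sqrt (by linarith)]

theorem subExp_const (c : ℕ) : SubExp fun _ => c := by
  intro r hr
  obtain ⟨n₀, hn₀⟩ := (tendsto_pow_atTop_atTop_of_one_lt hr).eventually_ge_atTop (c : ℝ)
    |> eventually_atTop.1
  exact ⟨n₀, fun n hn => hn₀ n hn⟩

theorem SubExp.pow {u : ℕ → ℕ} (hu : SubExp u) (m : ℕ) : SubExp fun n => u n ^ m := by
  induction m with
  | zero => simpa using subExp_const 1
  | succ m ih =>
    have := ih.mul hu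
    refine this.mono fun n => ?_
    rw [pow_succ]

theorem subExp_id : SubExp fun n => n := by
  intro r hr
  have h := tendsto_pow_const_div_const_pow_of_one_lt 1 hr
  obtain ⟨n₀, hn₀⟩ := eventually_atTop.1 (h.eventually (gt_mem_nhds (show (0 : ℝ) < 1 by norm_num)))
  refine ⟨n₀, fun n hn => ?_⟩
  have h1 := hn₀ n hn
  rw [div_lt_one (by positivity), pow_one] at h1
  exact h1.le

theorem SubExp.add {u v : ℕ → ℕ} (hu : SubExp u) (hv : SubExp v) : SubExp fun n => u n + v n := by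
  have h : SubExp fun n => (u n + 1) * (v n + 1) := by
    have key : ∀ w : ℕ → ℕ, SubExp w → SubExp fun n => w n + 1 := by
      intro w hw r hr
      have hs : 1 < (1 + r) / 2 := by linarith
      obtain ⟨n₁, hn₁⟩ := hw _ hs
      -- q ^ n + 1 ≤ r ^ n eventually
      have hr0 : 0 < r := by linarith
      have hq : (1 + r) / 2 / r < 1 := by rw [div_lt_one hr0]; linarith
      have hq0 : 0 ≤ (1 + r) / 2 / r := by positivity
      have t1 := tendsto_pow_atTop_nhds_zero_of_lt_one hq0 hq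
      have t2 := tendsto_pow_atTop_nhds_zero_of_lt_one (show 0 ≤ 1 / r by positivity)
        (by rw [div_lt_one hr0]; exact hr)
      have t3 := t1.add t2
      rw [add_zero] at t3
      obtain ⟨n₂, hn₂⟩ := eventually_atTop.1
        (t3.eventually (gt_mem_nhds (show (0 : ℝ) < 1 by norm_num)))
      refine ⟨max n₁ n₂, fun n hn => ?_⟩
      have h1 := hn₁ n ((le_max_left _ _).trans hn)
      have h2 := hn₂ n ((le_max_right _ _).trans hn)
      rw [div_pow ((1 + r) / 2) r n, div_pow 1 r n, one_pow, ← add_div,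
        div_lt_one (by positivity)] at h2
      push_cast
      linarith
    exact (key u hu).mul (key v hv)
  refine h.mono fun n => ?_
  nlinarith [Nat.zero_le (u n * v n)]

/-- reparametrization -/
theorem SubExp.comp_mul {u : ℕ → ℕ} (hu : SubExp u) (hmono : Monotone u) (c : ℕ) :
    SubExp fun n => u (c * n) := by
  intro r hr
  set s : ℝ := r ^ ((1 : ℝ) / (c + 1)) with hs
  have hs1 : 1 < s := Real.one_lt_rpow hr (by positivity)
  have hsr : s ^ (c + 1) = r := by
    rw [hs, ← Real.rpow_natCast, ← Real.rpow_mul (by linarith)]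
    push_cast
    rw [one_div, inv_mul_cancel₀ (by positivity), Real.rpow_one]
  obtain ⟨n₀, hn₀⟩ := hu s hs1
  refine ⟨n₀, fun n hn => ?_⟩
  have h1 := hn₀ ((c + 1) * n) (by nlinarith)
  have h2 : u (c * n) ≤ u ((c + 1) * n) := hmono (Nat.mul_le_mul_right _ (Nat.le_succ _))
  calc ((u (c * n) : ℕ) : ℝ) ≤ u ((c + 1) * n) := by exact_mod_cast h2
    _ ≤ s ^ ((c + 1) * n) := h1
    _ = r ^ n := by rw [pow_mul, hsr]

/-- subexponential functions are negligible against balls of exponential growth -/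
theorem SubExp.negligible {G : Type*} [Group G] {X : Set G} (hX : X.Finite) {u : ℕ → ℕ}
    (hu : SubExp u) (hgrow : ∃ c : ℕ, 1 ≤ c ∧ ∀ n, 2 ^ n ≤ (ball X (c * n)).ncard)
    {ε : ℝ} (hε : 0 < ε) : ∃ n₀, ∀ n ≥ n₀, (u n : ℝ) ≤ ε * (ball X n).ncard := by
  obtain ⟨c, hc, hgr⟩ := hgrow
  -- r with r ^ (2 c) = 2
  set r : ℝ := (2 : ℝ) ^ ((1 : ℝ) / (2 * c)) with hr
  have hc0 : (0 : ℝ) < c := by exact_mod_cast hc
  have hr1 : 1 < r := Real.one_lt_rpow (by norm_num) (by positivity)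
  have hrc : r ^ (2 * c) = 2 := by
    rw [hr, ← Real.rpow_natCast, ← Real.rpow_mul (by norm_num)]
    push_cast
    rw [one_div, inv_mul_cancel₀ (by positivity), Real.rpow_one]
  obtain ⟨n₁, hn₁⟩ := hu r hr1
  -- 2 / ε ≤ r ^ n eventually
  obtain ⟨n₂, hn₂⟩ := (tendsto_pow_atTop_atTop_of_one_lt hr1).eventually_ge_atTop (2 / ε)
    |> eventually_atTop.1
  refine ⟨max n₁ n₂, fun n hn => ?_⟩
  have h1 := hn₁ n ((le_max_left _ _).trans hn)
  have h2 := hn₂ n ((le_max_right _ _).trans hn)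
  set q := n / c with hq
  have hqn : c * q ≤ n := Nat.mul_div_le n c
  have hnq : n ≤ c * (q + 1) := by
    have := Nat.lt_mul_div_succ n hc
    rw [← hq] at this
    omega
  have h6 : (2 : ℝ) ^ q ≤ ((ball X n).ncard : ℝ) := by
    have h7 : 2 ^ q ≤ (ball X n).ncard :=
      (hgr q).trans (Set.ncard_le_ncard (ball_mono hqn) (ball_finite hX n))
    exact_mod_cast h7
  -- r ^ (2 n) ≤ 2 ^ (q + 1)
  have h3 : r ^ n * r ^ n ≤ 2 ^ (q + 1) := by
    calc r ^ n * r ^ n = r ^ (2 * n) := by rw [two_mul, pow_add]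
      _ ≤ r ^ (2 * (c * (q + 1))) := pow_le_pow_right₀ hr1.le (by omega)
      _ = 2 ^ (q + 1) := by rw [← hrc, ← pow_mul]; ring_nf
  have h4 : 2 ≤ ε * r ^ n := by
    rw [div_le_iff₀ hε] at h2
    linarith
  have h5 : (0 : ℝ) < r ^ n := by positivity
  calc (u n : ℝ) ≤ r ^ n := h1
    _ ≤ (ε * r ^ n) * r ^ n / 2 := by nlinarith
    _ = ε * (r ^ n * r ^ n) / 2 := by ring
    _ ≤ ε * 2 ^ (q + 1) / 2 := by
        have := mul_le_mul_of_nonneg_left h3 hε.le
        linarith
    _ = ε * 2 ^ q := by rw [pow_succ]; ring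
    _ ≤ ε * (ball X n).ncard := mul_le_mul_of_nonneg_left h6 hε.le

/-- `V` is a finitely generated group of subexponential growth. -/
def SubexpGrowth (V : Type*) [Group V] : Prop :=
  ∃ Z : Set V, Z.Finite ∧ Subgroup.closure Z = ⊤ ∧ SubExp fun n => (ball Z n).ncard

end Pool.Agent.AcylTdc2
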